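import Mathlib

set_option autoImplicit false

/-!
# Aleksandrov's theorem for finite convex functions on a Euclidean space

Proof by the proximal map (Mignot) and Rademacher's theorem.
-/

open MeasureTheory Set Filter Topology Module
open scoped InnerProductSpace

namespace Pool.Agent.K1H65.AL

variable {E : Type*} [NormedAddCommGroup E] [InnerProductSpace ℝ E]

/-- `g` is a subgradient of `f` at `x` -/
def SG (f : E → ℝ) (x g : E) : Prop := ∀ z, f x + ⟪g, z - x⟫_ℝ ≤ f z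

/-- monotonicity of subgradients -/
theorem SG.mono {f : E → ℝ} {x g x' g' : E} (h : SG f x g) (h' : SG f x' g') :
    0 ≤ ⟪g - g', x - x'⟫_ℝ := by
  have h1 := h x'
  have h2 := h' x
  have h3 : ⟪g, x' - x⟫_ℝ = -⟪g, x - x'⟫_ℝ := by rw [← inner_neg_right, neg_sub]
  rw [inner_sub_left]
  linarith

/-- proximal points are unique and depend on the point in a Lipschitz way -/
theorem prox_lip {f : E → ℝ} {x y x' y' : E} (h : SG f x (y - x)) (h' : SG f x' (y' - x')) :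
    ‖x - x'‖ ^ 2 ≤ ⟪y - y', x - x'⟫_ℝ := by
  have h1 := h.mono h'
  have h2 : (y - x) - (y' - x') = (y - y') - (x - x') := by abel
  rw [h2, inner_sub_left, real_inner_self_eq_norm_sq] at h1
  linarith

theorem prox_lip' {f : E → ℝ} {x y x' y' : E} (h : SG f x (y - x)) (h' : SG f x' (y' - x')) :
    ‖x - x'‖ ≤ ‖y - y'‖ := by
  have h1 := prox_lip h h'
  have h2 := real_inner_le_norm (y - y') (x - x')
  by_contra hcon
  rw [not_le] at hcon
  have h3 : 0 < ‖x - x'‖ := lt_of_le_of_lt (norm_nonneg _) hcon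
  nlinarith

variable [FiniteDimensional ℝ E]

/-- subgradients exist -/
theorem exists_SG {f : E → ℝ} (hf : ConvexOn ℝ univ f) (x : E) : ∃ g, SG f x g := by
  have hc : Continuous f := hf.locallyLipschitz.continuous
  obtain ⟨φ, hφ⟩ := geometric_hahn_banach_open_point (s := {p : E × ℝ | p.1 ∈ univ ∧ f p.1 < p.2})
    (x := (x, f x)) hf.convex_strict_epigraph (by
      have : {p : E × ℝ | p.1 ∈ univ ∧ f p.1 < p.2} = {p : E × ℝ | f p.1 < p.2} := by
        ext p; simp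
      rw [this]
      exact isOpen_lt (hc.comp continuous_fst) continuous_snd) (by simp)
  have hsplit : ∀ (z : E) (r : ℝ), φ (z, r) = φ (z, 0) + r * φ (0, 1) := by
    intro z r
    have : (z, r) = (z, (0 : ℝ)) + r • ((0 : E), (1 : ℝ)) := by simp
    rw [this, map_add, map_smul, smul_eq_mul]
  obtain ⟨c, hc'⟩ : ∃ c : ℝ, c = φ (0, 1) := ⟨_, rfl⟩
  have hc0 : c < 0 := by
    have := hφ (x, f x + 1) ⟨mem_univ _, by simp⟩
    rw [hsplit x (f x + 1), hsplit x (f x), ← hc'] at this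
    nlinarith
  have hle : ∀ z : E, φ (z, 0) + f z * c ≤ φ (x, 0) + f x * c := by
    intro z
    refine le_of_forall_pos_le_add fun ε hε => ?_
    have := hφ (z, f z + ε / (-c)) ⟨mem_univ _, by
      have : 0 < ε / (-c) := div_pos hε (by linarith)
      simpa using this⟩
    rw [hsplit z, hsplit x, ← hc'] at this
    have h2 : ε / (-c) * c = -ε := by
      have := hc0.ne
      field_simp
    nlinarith
  -- the gradient by the Riesz representation
  obtain ⟨ψ, hψ⟩ : ∃ ψ : E →L[ℝ] ℝ, ∀ z, ψ z = φ (z, 0) :=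
    ⟨φ.comp (ContinuousLinearMap.inl ℝ E ℝ), fun z => by simp⟩
  obtain ⟨a, ha⟩ : ∃ a : E, ∀ z, ⟪a, z⟫_ℝ = ψ z :=
    ⟨(InnerProductSpace.toDual ℝ E).symm ψ, fun z => InnerProductSpace.toDual_symm_apply⟩
  refine ⟨(-c)⁻¹ • a, fun z => ?_⟩
  rw [inner_smul_left, ha, map_sub, hψ, hψ]
  have h1 := hle z
  have h2 : 0 < -c := by linarith
  simp only [conj_trivial]
  have h3 : f x + (-c)⁻¹ * (φ (z, 0) - φ (x, 0)) ≤ f z ↔
      (-c)⁻¹ * (φ (z, 0) - φ (x, 0)) ≤ f z - f x := by constructor <;> intro h <;> linarith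
  rw [h3, inv_mul_le_iff₀ h2]
  linarith

/-- proximal points exist -/
theorem exists_prox {f : E → ℝ} (hf : ConvexOn ℝ univ f) (y : E) : ∃ x, SG f x (y - x) := by
  have hc : Continuous f := hf.locallyLipschitz.continuous
  obtain ⟨g, hg⟩ := exists_SG hf y
  have hcont : Continuous fun x => f x + ‖x - y‖ ^ 2 / 2 := by fun_prop
  obtain ⟨x, hx⟩ := hcont.exists_forall_le (by
    have h1 : Tendsto (fun x : E => ‖x - y‖) (cocompact E) atTop := by
      have h2 : Tendsto (fun x : E => x - y) (cocompact E) (cocompact E) :=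
        (Homeomorph.subRight y).isClosedEmbedding.tendsto_cocompact
      exact (tendsto_norm_cocompact_atTop (E := E)).comp h2
    have h3 : Tendsto (fun t : ℝ => f y + t * (t / 2 - ‖g‖)) atTop atTop := by
      refine tendsto_atTop_add_const_left _ _ ?_
      refine tendsto_id.atTop_mul_atTop₀ ?_
      refine tendsto_atTop_add_const_right _ _ ?_
      exact tendsto_id.atTop_div_const (by norm_num)
    refine tendsto_atTop_mono (fun x => ?_) (h3.comp h1)
    have h4 := hg x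
    have h5 := abs_le.1 (abs_real_inner_le_norm g (x - y))
    simp only [Function.comp]
    nlinarith [h5.1])
  refine ⟨x, fun z => ?_⟩
  -- first order condition
  have key : ∀ t : ℝ, 0 < t → t ≤ 1 → ⟪y - x, z - x⟫_ℝ - t * ‖z - x‖ ^ 2 / 2 ≤ f z - f x := by
    intro t ht ht1
    have h1 := hx (x + t • (z - x))
    have h2 : f (x + t • (z - x)) ≤ (1 - t) * f x + t * f z := by
      have := hf.2 (mem_univ x) (mem_univ z) (show 0 ≤ 1 - t by linarith) ht.le (by ring)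
      have h3 : (1 - t) • x + t • z = x + t • (z - x) := by
        rw [sub_smul, one_smul, smul_sub]; abel
      rw [h3] at this
      simpa using this
    have h3 : ‖x + t • (z - x) - y‖ ^ 2 = ‖x - y‖ ^ 2 - 2 * t * ⟪y - x, z - x⟫_ℝ +
        t ^ 2 * ‖z - x‖ ^ 2 := by
      have h4 : x + t • (z - x) - y = (x - y) + t • (z - x) := by abel
      rw [h4, norm_add_sq_real, inner_smul_right, norm_smul, mul_pow, Real.norm_eq_abs, sq_abs]
      have h5 : ⟪x - y, z - x⟫_ℝ = -⟪y - x, z - x⟫_ℝ := by rw [← inner_neg_left, neg_sub]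
      rw [h5]
      ring
    rw [h3] at h1
    have h6 : 0 ≤ t * ((f z - f x) - ⟪y - x, z - x⟫_ℝ + t * ‖z - x‖ ^ 2 / 2) := by nlinarith
    have h7 := nonneg_of_mul_nonneg_right h6 ht
    linarith
  have hlim : Tendsto (fun t : ℝ => ⟪y - x, z - x⟫_ℝ - t * ‖z - x‖ ^ 2 / 2) (𝓝[>] 0)
      (𝓝 (⟪y - x, z - x⟫_ℝ - 0 * ‖z - x‖ ^ 2 / 2)) :=
    (Continuous.tendsto (by fun_prop) 0).mono_left nhdsWithin_le_nhds
  rw [zero_mul, zero_div, sub_zero] at hlim
  have h := le_of_tendsto hlim (by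
    filter_upwards [Ioo_mem_nhdsGT (show (0 : ℝ) < 1 by norm_num)] with t ht
    exact key t ht.1 ht.2.le)
  linarith

/-- the subgradients near a point where the proximal map has an invertible derivative -/
theorem local_grad {f : E → ℝ} {J : E → E} (hJ : ∀ y, SG f (J y) (y - J y)) {y : E}
    {A : E →L[ℝ] E} (hd : HasFDerivAt J A y) (hdet : A.det ≠ 0) :
    ∃ B : E →L[ℝ] E, ∀ ε : ℝ, 0 < ε → ∃ δ : ℝ, 0 < δ ∧ ∀ h : E, ‖h‖ ≤ δ → ∀ g',
      SG f (J y + h) g' → ‖g' - (y - J y) - B h‖ ≤ ε * ‖h‖ := by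
  obtain ⟨Ae, hAe⟩ : ∃ Ae : E ≃L[ℝ] E, ∀ s, Ae s = A s :=
    ⟨A.toContinuousLinearEquivOfDetNeZero hdet, fun s => by simp⟩
  obtain ⟨K, hK⟩ : ∃ K : ℝ, K = ‖(Ae.symm : E →L[ℝ] E)‖ + 1 := ⟨_, rfl⟩
  have hK0 : 0 < K := by rw [hK]; positivity
  have hinv : ∀ s, ‖Ae.symm s‖ ≤ K * ‖s‖ := by
    intro s
    have h1 := (Ae.symm : E →L[ℝ] E).le_opNorm s
    have h2 : ‖(Ae.symm : E →L[ℝ] E)‖ * ‖s‖ ≤ K * ‖s‖ :=
      mul_le_mul_of_nonneg_right (by rw [hK]; linarith) (norm_nonneg _)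
    exact h1.trans h2
  refine ⟨(Ae.symm : E →L[ℝ] E) - 1, fun ε hε => ?_⟩
  obtain ⟨e, he⟩ : ∃ e : ℝ, e = min (1 / (2 * K)) (ε / (2 * K ^ 2)) := ⟨_, rfl⟩
  have he0 : 0 < e := by rw [he]; exact lt_min (by positivity) (by positivity)
  have he1 : e ≤ 1 / (2 * K) := by rw [he]; exact min_le_left _ _
  have he2 : e ≤ ε / (2 * K ^ 2) := by rw [he]; exact min_le_right _ _
  have hev : ∀ᶠ z in 𝓝 y, ‖J z - J y - A (z - y)‖ ≤ e * ‖z - y‖ := hd.isLittleO.def he0
  obtain ⟨r0, hr0, hball⟩ := Metric.eventually_nhds_iff.1 hev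
  obtain ⟨r, hr⟩ : ∃ r : ℝ, r = r0 / 2 := ⟨_, rfl⟩
  have hrpos : 0 < r := by rw [hr]; positivity
  have hloc : ∀ s : E, ‖s‖ ≤ r → ‖J (y + s) - J y - A s‖ ≤ e * ‖s‖ := by
    intro s hs
    have := hball (y := y + s) (by rw [dist_eq_norm, add_sub_cancel_left]; linarith)
    rwa [add_sub_cancel_left] at this
  -- coercivity
  have hco : ∀ s : E, ‖s‖ ≤ r → ‖s‖ ≤ 2 * K * ‖J (y + s) - J y‖ := by
    intro s hs
    have h1 : ‖s‖ ≤ K * ‖A s‖ := by
      have := hinv (Ae s)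
      rwa [Ae.symm_apply_apply, hAe] at this
    have h2 : ‖A s‖ ≤ ‖J (y + s) - J y‖ + e * ‖s‖ := by
      have h3 : A s = (J (y + s) - J y) - (J (y + s) - J y - A s) := by abel
      calc ‖A s‖ = ‖(J (y + s) - J y) - (J (y + s) - J y - A s)‖ := by rw [← h3]
        _ ≤ ‖J (y + s) - J y‖ + ‖J (y + s) - J y - A s‖ := norm_sub_le _ _
        _ ≤ _ := by linarith [hloc s hs]
    have h3 : K * (e * ‖s‖) ≤ ‖s‖ / 2 := by
      have : K * e ≤ 1 / 2 := by
        calc K * e ≤ K * (1 / (2 * K)) := mul_le_mul_of_nonneg_left he1 hK0.le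
          _ = 1 / 2 := by field_simp
      nlinarith [norm_nonneg s]
    nlinarith [norm_nonneg s]
  have hfar : ∀ s : E, r < ‖s‖ → r ≤ 4 * K ^ 2 * ‖J (y + s) - J y‖ := by
    intro s hs
    have hs0 : 0 < ‖s‖ := hrpos.trans hs
    obtain ⟨u, hu⟩ : ∃ u : E, u = (r / ‖s‖) • s := ⟨_, rfl⟩
    have hun : ‖u‖ = r := by
      rw [hu, norm_smul, Real.norm_eq_abs, abs_of_pos (by positivity)]
      field_simp
    have hsu : s - u = ((‖s‖ - r) / r) • u := by
      rw [hu, smul_smul]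
      have h1 : (‖s‖ - r) / r * (r / ‖s‖) = 1 - r / ‖s‖ := by field_simp
      rw [h1, sub_smul, one_smul]
    have h1 := prox_lip (hJ (y + s)) (hJ (y + u))
    have h2 : y + s - (y + u) = s - u := by abel
    rw [h2, hsu, inner_smul_left] at h1
    simp only [conj_trivial] at h1
    have h3 : 0 ≤ ⟪u, J (y + s) - J (y + u)⟫_ℝ := by
      have h4 : 0 ≤ (‖s‖ - r) / r * ⟪u, J (y + s) - J (y + u)⟫_ℝ :=
        le_trans (by positivity) h1
      have h5 : 0 < (‖s‖ - r) / r := div_pos (by linarith) hrpos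
      exact nonneg_of_mul_nonneg_right h4 h5
    have h4 := prox_lip (hJ (y + u)) (hJ y)
    rw [add_sub_cancel_left] at h4
    have h5 : ⟪u, J (y + s) - J y⟫_ℝ = ⟪u, J (y + s) - J (y + u)⟫_ℝ + ⟪u, J (y + u) - J y⟫_ℝ := by
      rw [← inner_add_right]; congr 1; abel
    have h6 := real_inner_le_norm u (J (y + s) - J y)
    have h7 := hco u hun.le
    rw [hun] at h6 h7
    have h8 : r ^ 2 ≤ 4 * K ^ 2 * (r * ‖J (y + s) - J y‖) := by
      calc r ^ 2 ≤ (2 * K * ‖J (y + u) - J y‖) ^ 2 := pow_le_pow_left₀ hrpos.le h7 2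
        _ = 4 * K ^ 2 * ‖J (y + u) - J y‖ ^ 2 := by ring
        _ ≤ 4 * K ^ 2 * (r * ‖J (y + s) - J y‖) :=
          mul_le_mul_of_nonneg_left (by linarith) (by positivity)
    have h9 : r * r ≤ r * (4 * K ^ 2 * ‖J (y + s) - J y‖) := by nlinarith
    exact le_of_mul_le_mul_left h9 hrpos
  refine ⟨r / (8 * K ^ 2), by positivity, fun h hh g' hg' => ?_⟩
  obtain ⟨s, hs⟩ : ∃ s : E, s = J y + h + g' - y := ⟨_, rfl⟩
  have hys : y + s = J y + h + g' := by rw [hs]; abel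
  have hJs : J (y + s) = J y + h := by
    have h1 : SG f (J y + h) (y + s - (J y + h)) := by
      have : y + s - (J y + h) = g' := by rw [hys]; abel
      rw [this]; exact hg'
    have h2 := prox_lip' (hJ (y + s)) h1
    rw [sub_self, norm_zero] at h2
    exact sub_eq_zero.1 (norm_le_zero_iff.1 h2)
  have hJd : J (y + s) - J y = h := by rw [hJs]; abel
  have hsr : ‖s‖ ≤ r := by
    by_contra hcon
    rw [not_le] at hcon
    have h1 := hfar s hcon
    rw [hJd] at h1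
    have h2 : 4 * K ^ 2 * ‖h‖ ≤ 4 * K ^ 2 * (r / (8 * K ^ 2)) :=
      mul_le_mul_of_nonneg_left hh (by positivity)
    have h3 : 4 * K ^ 2 * (r / (8 * K ^ 2)) = r / 2 := by field_simp; norm_num
    linarith
  have h1 := hco s hsr
  rw [hJd] at h1
  have h2 := hloc s hsr
  rw [hJd] at h2
  have h3 : g' - (y - J y) - ((Ae.symm : E →L[ℝ] E) - 1) h = Ae.symm (A s - h) := by
    rw [map_sub, ← hAe, Ae.symm_apply_apply]
    simp only [sub_apply, ContinuousLinearEquiv.coe_coe, one_apply_eq_self]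
    rw [hs]
    abel
  rw [h3]
  calc ‖Ae.symm (A s - h)‖ ≤ K * ‖A s - h‖ := hinv _
    _ ≤ K * (e * ‖s‖) := by
        rw [norm_sub_rev]
        exact mul_le_mul_of_nonneg_left h2 hK0.le
    _ ≤ K * (e * (2 * K * ‖h‖)) := by gcongr
    _ = e * (2 * K ^ 2) * ‖h‖ := by ring
    _ ≤ ε / (2 * K ^ 2) * (2 * K ^ 2) * ‖h‖ := by gcongr
    _ = ε * ‖h‖ := by field_simp

/-- a function with small increments -/
theorem telescope {ψ : ℝ → ℝ} {a b : ℝ}
    (h : ∀ s s' : ℝ, 0 ≤ s → s ≤ s' → s' ≤ 1 → |ψ s' - ψ s| ≤ (s' - s) * a + (s' - s) ^ 2 * b) :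
    |ψ 1 - ψ 0| ≤ a := by
  have key : ∀ n : ℕ, |ψ 1 - ψ 0| ≤ a + b * (1 / ((n : ℝ) + 1)) := by
    intro n
    have hn : (0 : ℝ) < (n : ℝ) + 1 := by positivity
    have h1 : ψ 1 - ψ 0 = ∑ i ∈ Finset.range (n + 1),
        (ψ (((i + 1 : ℕ) : ℝ) / (n + 1)) - ψ ((i : ℝ) / (n + 1))) := by
      rw [Finset.sum_range_sub (fun i : ℕ => ψ ((i : ℝ) / (n + 1)))]
      push_cast
      rw [div_self hn.ne', zero_div]
    rw [h1]
    refine (Finset.abs_sum_le_sum_abs _ _).trans ?_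
    have h2 : ∀ i ∈ Finset.range (n + 1),
        |ψ (((i + 1 : ℕ) : ℝ) / (n + 1)) - ψ ((i : ℝ) / (n + 1))| ≤
          1 / ((n : ℝ) + 1) * a + (1 / ((n : ℝ) + 1)) ^ 2 * b := by
      intro i hi
      rw [Finset.mem_range] at hi
      have h3 : (((i + 1 : ℕ) : ℝ) / (n + 1)) - (i : ℝ) / (n + 1) = 1 / ((n : ℝ) + 1) := by
        push_cast; field_simp; ring
      have h4 := h ((i : ℝ) / (n + 1)) (((i + 1 : ℕ) : ℝ) / (n + 1)) (by positivity)
        (by rw [← sub_nonneg, h3]; positivity) (by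
          rw [div_le_one hn]
          have : ((i + 1 : ℕ) : ℝ) ≤ ((n + 1 : ℕ) : ℝ) := by exact_mod_cast (by omega : i + 1 ≤ n + 1)
          push_cast at this ⊢
          linarith)
      rwa [h3] at h4
    refine (Finset.sum_le_sum h2).trans (le_of_eq ?_)
    rw [Finset.sum_const, Finset.card_range, nsmul_eq_mul]
    push_cast
    field_simp
  have hlim : Tendsto (fun n : ℕ => a + b * (1 / ((n : ℝ) + 1))) atTop (𝓝 (a + b * 0)) :=
    (tendsto_one_div_add_atTop_nhds_zero_nat.const_mul b).const_add a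
  rw [mul_zero, add_zero] at hlim
  exact ge_of_tendsto' hlim key

/-- the second order expansion from the first order expansion of the subgradients -/
theorem expand {f : E → ℝ} (hf : ConvexOn ℝ univ f) {x g : E} {B : E →L[ℝ] E}
    (H : ∀ ε : ℝ, 0 < ε → ∃ δ : ℝ, 0 < δ ∧ ∀ h : E, ‖h‖ ≤ δ → ∀ g',
      SG f (x + h) g' → ‖g' - g - B h‖ ≤ ε * ‖h‖) :
    ∀ ε : ℝ, 0 < ε → ∃ δ : ℝ, 0 < δ ∧ ∀ h : E, ‖h‖ ≤ δ →
      |f (x + h) - (f x + ⟪g, h⟫_ℝ + ⟪B h, h⟫_ℝ / 2)| ≤ ε * ‖h‖ ^ 2 := by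
  intro ε hε
  obtain ⟨δ, hδ, hH⟩ := H ε hε
  refine ⟨δ, hδ, fun h hh => ?_⟩
  choose G hG using fun s : ℝ => exists_SG hf (x + s • h)
  have hGe : ∀ s : ℝ, 0 ≤ s → s ≤ 1 →
      |⟪G s, h⟫_ℝ - ⟪g, h⟫_ℝ - s * ⟪B h, h⟫_ℝ| ≤ ε * ‖h‖ ^ 2 := by
    intro s hs0 hs1
    have hn : ‖s • h‖ ≤ ‖h‖ := by
      rw [norm_smul, Real.norm_eq_abs, abs_of_nonneg hs0]
      exact mul_le_of_le_one_left (norm_nonneg _) hs1
    have h1 := hH (s • h) (hn.trans hh) (G s) (hG s)
    have h2 : ⟪G s, h⟫_ℝ - ⟪g, h⟫_ℝ - s * ⟪B h, h⟫_ℝ = ⟪G s - g - B (s • h), h⟫_ℝ := by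
      rw [inner_sub_left, inner_sub_left, map_smul, inner_smul_left]
      simp
    rw [h2]
    calc |⟪G s - g - B (s • h), h⟫_ℝ| ≤ ‖G s - g - B (s • h)‖ * ‖h‖ := abs_real_inner_le_norm _ _
      _ ≤ (ε * ‖s • h‖) * ‖h‖ := mul_le_mul_of_nonneg_right h1 (norm_nonneg _)
      _ ≤ (ε * ‖h‖) * ‖h‖ := by gcongr
      _ = _ := by ring
  have key := telescope (ψ := fun s : ℝ => f (x + s • h) - s * ⟪g, h⟫_ℝ - s ^ 2 * ⟪B h, h⟫_ℝ / 2)
    (a := ε * ‖h‖ ^ 2) (b := |⟪B h, h⟫_ℝ| / 2) (by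
      intro s s' hs hss hs1
      have h1 := hG s (x + s' • h)
      have h2 := hG s' (x + s • h)
      have e1 : x + s' • h - (x + s • h) = (s' - s) • h := by rw [sub_smul]; abel
      have e2 : x + s • h - (x + s' • h) = -((s' - s) • h) := by rw [sub_smul]; abel
      rw [e1, inner_smul_right] at h1
      rw [e2, inner_neg_right, inner_smul_right] at h2
      have h3 := abs_le.1 (hGe s hs (hss.trans hs1))
      have h4 := abs_le.1 (hGe s' (hs.trans hss) hs1)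
      have h5 : 0 ≤ s' - s := by linarith
      have h6 := neg_abs_le ⟪B h, h⟫_ℝ
      have h7 := le_abs_self ⟪B h, h⟫_ℝ
      have h8 := mul_le_mul_of_nonneg_left h3.1 h5
      have h9 := mul_le_mul_of_nonneg_left h4.2 h5
      have h10 := mul_le_mul_of_nonneg_left h6 (mul_nonneg h5 h5)
      have h11 := mul_le_mul_of_nonneg_left h7 (mul_nonneg h5 h5)
      rw [abs_le]
      constructor
      · nlinarith
      · nlinarith)
  simp only [one_smul, one_mul, one_pow, zero_smul, add_zero, zero_mul, sub_zero] at key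
  have e : f (x + h) - (f x + ⟪g, h⟫_ℝ + ⟪B h, h⟫_ℝ / 2) =
      f (x + h) - ⟪g, h⟫_ℝ - ⟪B h, h⟫_ℝ / 2 - (f x - 0 ^ 2 * ⟪B h, h⟫_ℝ / 2) := by ring
  rw [e]
  exact key

/-- **Aleksandrov's theorem** on a finite dimensional inner product space -/
theorem aleksandrov [MeasurableSpace E] [BorelSpace E] {f : E → ℝ} (hf : ConvexOn ℝ univ f)
    (μ : Measure E) [μ.IsAddHaarMeasure] :
    ∀ᵐ x ∂μ, ∃ (g : E) (B : E →L[ℝ] E), SG f x g ∧ ∀ ε : ℝ, 0 < ε → ∃ δ : ℝ, 0 < δ ∧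
      ∀ h : E, ‖h‖ ≤ δ → |f (x + h) - (f x + ⟪g, h⟫_ℝ + ⟪B h, h⟫_ℝ / 2)| ≤ ε * ‖h‖ ^ 2 := by
  choose J hJ using exists_prox hf
  have hlip : LipschitzWith 1 J :=
    LipschitzWith.of_dist_le_mul fun y y' => by
      rw [NNReal.coe_one, one_mul, dist_eq_norm, dist_eq_norm]
      exact prox_lip' (hJ y) (hJ y')
  obtain ⟨N1, hN1⟩ : ∃ N1 : Set E, N1 = {y | ¬ DifferentiableAt ℝ J y} := ⟨_, rfl⟩
  obtain ⟨N2, hN2⟩ : ∃ N2 : Set E, N2 = {y | DifferentiableAt ℝ J y ∧ (fderiv ℝ J y).det = 0} :=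
    ⟨_, rfl⟩
  have h1 : μH[finrank ℝ E] (J '' N1) = 0 := by
    have h2 : μH[finrank ℝ E] N1 = 0 := by
      rw [hN1]
      exact hlip.ae_differentiableAt (μ := (μH[finrank ℝ E] : Measure E))
    refine le_antisymm ((hlip.hausdorffMeasure_image_le (by positivity) N1).trans ?_) zero_le
    rw [h2, mul_zero]
  have h1' : μ (J '' N1) = 0 :=
    Measure.absolutelyContinuous_isAddHaarMeasure μ (μH[finrank ℝ E] : Measure E) h1
  have h2 : μ (J '' N2) = 0 :=
    addHaar_image_eq_zero_of_det_fderivWithin_eq_zero μ (f' := fun y => fderiv ℝ J y)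
      (fun y hy => by
        rw [hN2] at hy
        exact hy.1.hasFDerivAt.hasFDerivWithinAt) (fun y hy => by
        rw [hN2] at hy
        exact hy.2)
  have h3 : μ (J '' N1 ∪ J '' N2) = 0 := measure_union_null h1' h2
  filter_upwards [measure_eq_zero_iff_ae_notMem.1 h3] with x hx
  obtain ⟨g, hg⟩ := exists_SG hf x
  have hJx : J (x + g) = x := by
    have h4 : SG f x (x + g - x) := by rw [add_sub_cancel_left]; exact hg
    have h5 := prox_lip' (hJ (x + g)) h4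
    rw [sub_self, norm_zero] at h5
    exact sub_eq_zero.1 (norm_le_zero_iff.1 h5)
  have hd : DifferentiableAt ℝ J (x + g) := by
    by_contra hcon
    exact hx (Or.inl ⟨x + g, by rw [hN1]; exact hcon, hJx⟩)
  have hdet : (fderiv ℝ J (x + g)).det ≠ 0 := by
    intro hcon
    exact hx (Or.inr ⟨x + g, by rw [hN2]; exact ⟨hd, hcon⟩, hJx⟩)
  obtain ⟨B, hB⟩ := local_grad hJ hd.hasFDerivAt hdet
  rw [hJx, add_sub_cancel_left] at hB
  exact ⟨g, B, hg, expand hf hB⟩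

end Pool.Agent.K1H65.AL
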