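import Mathlib
import Pool.Agent.K1H65.AL.Core

set_option autoImplicit false

/-!
# Aleksandrov's theorem in coordinates, and positive definite forms
-/

open MeasureTheory Set Filter Topology Module
open scoped InnerProductSpace

namespace Pool.Agent.K1H65.AL

variable {d : ℕ}

theorem sq_mulVec_le (M : Matrix (Fin d) (Fin d) ℝ) (w : Fin d → ℝ) :
    ∑ i, (M.mulVec w i) ^ 2 ≤ (∑ i, ∑ j, M i j ^ 2) * ∑ k, w k ^ 2 := by
  rw [Finset.sum_mul]
  refine Finset.sum_le_sum fun i _ => ?_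
  unfold Matrix.mulVec dotProduct
  exact Finset.sum_mul_sq_le_sq_mul_sq _ _ _

open scoped MatrixOrder ComplexOrder in
theorem exists_root (Q : Matrix (Fin d) (Fin d) ℝ) (hQ : Q.PosSemidef) :
    ∃ R : Matrix (Fin d) (Fin d) ℝ, Q = R.conjTranspose * R := by
  obtain ⟨B, hB⟩ := CStarAlgebra.nonneg_iff_eq_star_mul_self.mp hQ.nonneg
  exact ⟨B, hB⟩

/-- positive definite quadratic forms are bounded from below -/
theorem pd (Q : Matrix (Fin d) (Fin d) ℝ) (hQ : Q.PosSemidef) (hdet : Q.det ≠ 0) :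
    ∃ c : ℝ, 0 < c ∧ ∀ t : Fin d → ℝ, c * ∑ k, t k ^ 2 ≤ t ⬝ᵥ Q.mulVec t := by
  obtain ⟨R, hR⟩ := exists_root Q hQ
  have hRdet : R.det ≠ 0 := by
    intro h
    apply hdet
    rw [hR, Matrix.det_mul, h, mul_zero]
  have hquad : ∀ t : Fin d → ℝ, t ⬝ᵥ Q.mulVec t = ∑ k, (R.mulVec t k) ^ 2 := by
    intro t
    rw [hR, ← Matrix.mulVec_mulVec, Matrix.dotProduct_mulVec]
    have h1 : Matrix.vecMul t R.conjTranspose = R.mulVec t := by
      rw [Matrix.conjTranspose_eq_transpose_of_trivial, Matrix.vecMul_transpose]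
    rw [h1]
    unfold dotProduct
    exact Finset.sum_congr rfl fun i _ => by ring
  have hinv : ∀ t : Fin d → ℝ, R⁻¹.mulVec (R.mulVec t) = t := by
    intro t
    rw [Matrix.mulVec_mulVec, Matrix.nonsing_inv_mul R (isUnit_iff_ne_zero.2 hRdet),
      Matrix.one_mulVec]
  obtain ⟨C, hC⟩ : ∃ C : ℝ, C = (∑ i, ∑ j, R⁻¹ i j ^ 2) + 1 := ⟨_, rfl⟩
  have hC0 : 0 < C := by
    rw [hC]
    have : 0 ≤ ∑ i, ∑ j, R⁻¹ i j ^ 2 :=
      Finset.sum_nonneg fun i _ => Finset.sum_nonneg fun j _ => sq_nonneg _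
    linarith
  refine ⟨C⁻¹, by positivity, fun t => ?_⟩
  rw [hquad, inv_mul_le_iff₀ hC0]
  have h1 := sq_mulVec_le R⁻¹ (R.mulVec t)
  rw [hinv] at h1
  refine h1.trans (mul_le_mul_of_nonneg_right (by rw [hC]; linarith)
    (Finset.sum_nonneg fun i _ => sq_nonneg _))

/-- the matrix of the quadratic form `⟪B t, t⟫` -/
noncomputable def mat (B : EuclideanSpace ℝ (Fin d) →L[ℝ] EuclideanSpace ℝ (Fin d)) :
    Matrix (Fin d) (Fin d) ℝ :=
  fun i j => (⟪B (EuclideanSpace.single i 1), EuclideanSpace.single j 1⟫_ℝ +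
    ⟪B (EuclideanSpace.single j 1), EuclideanSpace.single i 1⟫_ℝ) / 2

theorem mat_quad (B : EuclideanSpace ℝ (Fin d) →L[ℝ] EuclideanSpace ℝ (Fin d)) (t : Fin d → ℝ) :
    t ⬝ᵥ (mat B).mulVec t = ⟪B (WithLp.toLp 2 t), WithLp.toLp 2 t⟫_ℝ := by
  have ht : (WithLp.toLp 2 t : EuclideanSpace ℝ (Fin d)) =
      ∑ i, t i • EuclideanSpace.single i (1 : ℝ) := by
    ext j
    simp [Pi.single_apply]
  have h1 : ⟪B (WithLp.toLp 2 t), WithLp.toLp 2 t⟫_ℝ =
      ∑ i, ∑ j, t i * t j * ⟪B (EuclideanSpace.single i 1), EuclideanSpace.single j 1⟫_ℝ := by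
    rw [ht, map_sum, sum_inner]
    refine Finset.sum_congr rfl fun i _ => ?_
    rw [inner_sum]
    refine Finset.sum_congr rfl fun j _ => ?_
    rw [map_smul, inner_smul_left, inner_smul_right]
    simp only [conj_trivial]
    ring
  have h2 : ⟪B (WithLp.toLp 2 t), WithLp.toLp 2 t⟫_ℝ =
      ∑ i, ∑ j, t i * t j * ⟪B (EuclideanSpace.single j 1), EuclideanSpace.single i 1⟫_ℝ := by
    rw [h1, Finset.sum_comm]
    refine Finset.sum_congr rfl fun i _ => Finset.sum_congr rfl fun j _ => ?_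
    ring
  have h3 : t ⬝ᵥ (mat B).mulVec t =
      ((∑ i, ∑ j, t i * t j * ⟪B (EuclideanSpace.single i 1), EuclideanSpace.single j 1⟫_ℝ) +
      ∑ i, ∑ j, t i * t j * ⟪B (EuclideanSpace.single j 1), EuclideanSpace.single i 1⟫_ℝ) / 2 := by
    unfold mat Matrix.mulVec dotProduct
    rw [← Finset.sum_add_distrib, Finset.sum_div]
    refine Finset.sum_congr rfl fun i _ => ?_
    rw [← Finset.sum_add_distrib, Finset.sum_div, Finset.mul_sum]
    refine Finset.sum_congr rfl fun j _ => ?_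
    ring
  rw [h3, ← h1, ← h2]
  ring

/-- **Aleksandrov's theorem** in coordinates -/
theorem alex (p : (Fin d → ℝ) → ℝ) (hp : ConvexOn ℝ univ p) :
    ∀ᵐ h : Fin d → ℝ, ∃ (v : Fin d → ℝ) (Q : Matrix (Fin d) (Fin d) ℝ), Q.PosSemidef ∧
      ∀ ε : ℝ, 0 < ε → ∃ δ : ℝ, 0 < δ ∧ ∀ t : Fin d → ℝ, ∑ k, t k ^ 2 ≤ δ ^ 2 →
        |p (h + t) - (p h + ∑ k, v k * t k + 1 / 2 * (t ⬝ᵥ Q.mulVec t))| ≤ ε * ∑ k, t k ^ 2 := by
  have hf : ConvexOn ℝ univ (fun x : EuclideanSpace ℝ (Fin d) => p (WithLp.ofLp x)) := by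
    have := hp.comp_linearMap (WithLp.linearEquiv 2 ℝ (Fin d → ℝ)).toLinearMap
    simpa [Function.comp_def] using this
  have h1 := aleksandrov hf (volume : Measure (EuclideanSpace ℝ (Fin d)))
  have h2 := (PiLp.volume_preserving_toLp (Fin d)).quasiMeasurePreserving.ae h1
  filter_upwards [h2] with h hh
  obtain ⟨g, B, hg, hB⟩ := hh
  have hsum : ∀ t : Fin d → ℝ, ‖(WithLp.toLp 2 t : EuclideanSpace ℝ (Fin d))‖ ^ 2 = ∑ k, t k ^ 2 := by
    intro t
    rw [EuclideanSpace.norm_sq_eq]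
    simp
  have hip : ∀ t : Fin d → ℝ, ⟪g, (WithLp.toLp 2 t : EuclideanSpace ℝ (Fin d))⟫_ℝ =
      ∑ k, WithLp.ofLp g k * t k := by
    intro t
    rw [PiLp.inner_apply]
    refine Finset.sum_congr rfl fun k _ => ?_
    simp [mul_comm]
  have hexp : ∀ ε : ℝ, 0 < ε → ∃ δ : ℝ, 0 < δ ∧ ∀ t : Fin d → ℝ, ∑ k, t k ^ 2 ≤ δ ^ 2 →
      |p (h + t) - (p h + ∑ k, WithLp.ofLp g k * t k + 1 / 2 * (t ⬝ᵥ (mat B).mulVec t))| ≤
        ε * ∑ k, t k ^ 2 := by
    intro ε hε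
    obtain ⟨δ, hδ, hδ'⟩ := hB ε hε
    refine ⟨δ, hδ, fun t ht => ?_⟩
    have h3 : ‖(WithLp.toLp 2 t : EuclideanSpace ℝ (Fin d))‖ ≤ δ := by
      rw [← hsum] at ht
      exact (sq_le_sq₀ (norm_nonneg _) hδ.le).1 ht
    have h4 := hδ' (WithLp.toLp 2 t) h3
    rw [hip, hsum, ← mat_quad] at h4
    have h5 : WithLp.ofLp (WithLp.toLp 2 h + WithLp.toLp 2 t : EuclideanSpace ℝ (Fin d)) = h + t := rfl
    simp only [h5] at h4
    have h6 : 1 / 2 * (t ⬝ᵥ (mat B).mulVec t) = (t ⬝ᵥ (mat B).mulVec t) / 2 := by ring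
    rw [h6]
    exact h4
  refine ⟨WithLp.ofLp g, mat B, ?_, hexp⟩
  refine Matrix.PosSemidef.of_dotProduct_mulVec_nonneg ?_ ?_
  · ext i j
    simp only [Matrix.conjTranspose_apply, star_trivial, mat]
    ring
  · intro t
    simp only [star_trivial]
    -- the second difference is nonnegative
    by_contra hcon
    rw [not_le] at hcon
    obtain ⟨S, hS⟩ : ∃ S : ℝ, S = ∑ k, t k ^ 2 := ⟨_, rfl⟩
    have hS0 : 0 ≤ S := by rw [hS]; exact Finset.sum_nonneg fun i _ => sq_nonneg _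
    obtain ⟨q, hq⟩ : ∃ q : ℝ, q = t ⬝ᵥ (mat B).mulVec t := ⟨_, rfl⟩
    rw [← hq] at hcon
    obtain ⟨δ, hδ, hδ'⟩ := hexp (-q / (4 * (S + 1))) (by
      apply div_pos <;> linarith)
    obtain ⟨s, hs⟩ : ∃ s : ℝ, s = δ / (S + 1) := ⟨_, rfl⟩
    have hs0 : 0 < s := by rw [hs]; positivity
    have h3 : ∑ k, (s • t) k ^ 2 = s ^ 2 * S := by
      rw [hS, Finset.mul_sum]
      refine Finset.sum_congr rfl fun k _ => ?_
      simp only [Pi.smul_apply, smul_eq_mul]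
      ring
    have h4 : (s • t) ⬝ᵥ (mat B).mulVec (s • t) = s ^ 2 * q := by
      rw [Matrix.mulVec_smul, smul_dotProduct, dotProduct_smul, hq, smul_eq_mul, smul_eq_mul]
      ring
    have h5 := hδ' (s • t) (by
      rw [h3, hs, div_pow, div_mul_eq_mul_div, div_le_iff₀ (by positivity)]
      refine mul_le_mul_of_nonneg_left ?_ (by positivity)
      nlinarith)
    rw [h3, h4] at h5
    have h6 := hg (WithLp.toLp 2 (h + s • t))
    have h7 : (WithLp.toLp 2 (h + s • t) : EuclideanSpace ℝ (Fin d)) - WithLp.toLp 2 h =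
        WithLp.toLp 2 (s • t) := by
      rw [WithLp.toLp_add, add_sub_cancel_left]
    rw [h7, hip] at h6
    have h10 := (abs_le.1 h5).2
    have h11 : -q / (4 * (S + 1)) * (s ^ 2 * S) ≤ -q / 4 * s ^ 2 := by
      have h12 : -q / (4 * (S + 1)) * (s ^ 2 * S) = -q / 4 * s ^ 2 * (S / (S + 1)) := by
        field_simp
      rw [h12]
      have h13 : S / (S + 1) ≤ 1 := by rw [div_le_one (by positivity)]; linarith
      exact mul_le_of_le_one_right (mul_nonneg (by linarith) (sq_nonneg _)) h13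
    have h14 : 0 < s ^ 2 * (-q) := mul_pos (by positivity) (by linarith)
    linarith

end Pool.Agent.K1H65.AL
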