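import Pool.Agent.K1H53.KD.Plan4
import Pool.Agent.K1H65.AL.Fin

set_option autoImplicit false

/-!
# Aleksandrov's theorem: the statements of `Pool.Agent.K1H53.KD`
-/

namespace Pool.Agent.K1H65.AL

open Pool.Agent.K1H53.KD

theorem t_alex (d : ℕ) : S_alex d := fun p hp => alex p hp

theorem t_pd (d : ℕ) : S_pd d := fun Q hQ hdet => pd Q hQ hdet

end Pool.Agent.K1H65.AL
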